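import Pool.Agent.T9h5.GG.Spec3

/-!
# Function fields in one variable over a finite field have the arithmetic structure `Ar`
-/

set_option autoImplicit false
set_option linter.all false
set_option linter.overlappingInstances false

namespace Pool.Agent.T9h85.GG

open Module FF Pool.Agent.H525R3.FFp Pool.Agent.T9h5.GG

variable {k K : Type} [Field k] [Field K] [Algebra k K]

/-- The functions regular outside `P₀`. -/
def AA (P₀ : Place k K) : Subring K where
  carrier := {f | ∀ P : Place k K, P ≠ P₀ → P.Reg f}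
  mul_mem' := fun hf hg P hP => P.reg_mul (hf P hP) (hg P hP)
  one_mem' := fun P _ => P.reg_one
  add_mem' := fun hf hg P hP => P.reg_add (hf P hP) (hg P hP)
  zero_mem' := fun P _ => P.reg_zero
  neg_mem' := fun hf P hP => P.reg_neg (hf P hP)

theorem mem_AA {P₀ : Place k K} {f : K} : f ∈ AA P₀ ↔ ∀ P : Place k K, P ≠ P₀ → P.Reg f := Iff.rfl

/-- The other places. -/
abbrev ZZ (P₀ : Place k K) : Type := {P : Place k K // P ≠ P₀}

variable {P₀ : Place k K}

theorem ord_nonneg (x : AA P₀) (z : ZZ P₀) : 0 ≤ z.1.ord x.1 := by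
  by_cases hx : x.1 = 0
  · rw [hx, z.1.ord_zero]
  · exact (z.1.reg_iff hx).1 (x.2 z.1 z.2)

theorem coe_ne {x : AA P₀} (hx : x ≠ 0) : x.1 ≠ 0 := fun h => hx (Subtype.ext h)

variable [PerfectField k] [IsFF k K]

/-- divisor of zeros. -/
noncomputable def dvv (P₀ : Place k K) (x : AA P₀) : ZZ P₀ →₀ ℕ :=
  Finsupp.ofSupportFinite (fun z => (z.1.ord x.1).toNat) (by
    refine Set.Finite.subset ((finite_support x.1).preimage Subtype.val_injective.injOn) ?_
    intro z hz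
    simp only [Function.mem_support, ne_eq] at hz
    simp only [Set.mem_preimage, Set.mem_setOf_eq]
    intro h
    rw [h] at hz
    exact hz rfl)

theorem dvv_apply (x : AA P₀) (z : ZZ P₀) : ((dvv P₀ x z : ℕ) : ℤ) = z.1.ord x.1 := by
  change (((z.1.ord x.1).toNat : ℕ) : ℤ) = _
  exact Int.toNat_of_nonneg (ord_nonneg x z)

/-- pole order. -/
noncomputable def htt (P₀ : Place k K) (x : AA P₀) : ℕ := (- P₀.ord x.1).toNat

/-- divisors. -/
noncomputable def io (E : ZZ P₀ →₀ ℕ) : Place k K →₀ ℤ :=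
  Finsupp.embDomain ⟨Subtype.val, Subtype.val_injective⟩ (E.mapRange (Nat.cast : ℕ → ℤ) (by simp))

theorem io_apply (E : ZZ P₀ →₀ ℕ) (z : ZZ P₀) : io E z.1 = (E z : ℤ) := by
  unfold io
  have := Finsupp.embDomain_apply_self (⟨Subtype.val, Subtype.val_injective⟩ : ZZ P₀ ↪ Place k K)
    (E.mapRange (Nat.cast : ℕ → ℤ) (by simp)) z
  rw [Finsupp.mapRange_apply] at this
  exact this

theorem io_self (E : ZZ P₀ →₀ ℕ) : io E P₀ = 0 := by
  unfold io
  apply Finsupp.embDomain_of_notMem_range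
  rintro ⟨z, hz⟩
  exact z.2 hz

theorem ddeg_io (E : ZZ P₀ →₀ ℕ) : ddeg (io E) = (dEg (fun z : ZZ P₀ => z.1.deg) E : ℤ) := by
  unfold ddeg io dEg
  rw [Finsupp.sum_embDomain, Finsupp.sum_mapRange_index (by intro a; simp)]
  unfold Finsupp.sum
  push_cast
  rfl

theorem ddeg_io_nonneg (E : ZZ P₀ →₀ ℕ) : 0 ≤ ddeg (io E) := by
  rw [ddeg_io]; positivity

theorem div_eq {x : AA P₀} (hx : x ≠ 0) :
    divisor k x.1 = io (dvv P₀ x) + Finsupp.single P₀ (P₀.ord x.1) := by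
  classical
  ext P
  rw [divisor_apply, Finsupp.add_apply]
  by_cases hP : P = P₀
  · subst hP
    rw [io_self, Finsupp.single_eq_same, zero_add]
  · rw [Finsupp.single_eq_of_ne hP, add_zero]
    have := io_apply (dvv P₀ x) ⟨P, hP⟩
    rw [this, dvv_apply]

theorem deg_eq {x : AA P₀} (hx : x ≠ 0) :
    ddeg (io (dvv P₀ x)) = - P₀.ord x.1 * P₀.deg := by
  have h1 := ddeg_divisor (k := k) x.1
  rw [div_eq hx, ddeg_add, ddeg_single] at h1
  linarith

theorem htt_eq {x : AA P₀} (hx : x ≠ 0) : ((htt P₀ x : ℕ) : ℤ) = - P₀.ord x.1 := by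
  unfold htt
  apply Int.toNat_of_nonneg
  by_contra hc
  push Not at hc
  have h1 := deg_eq hx
  have h2 := ddeg_io_nonneg (dvv P₀ x)
  have h3 : (0 : ℤ) < P₀.deg := by exact_mod_cast deg_pos P₀
  nlinarith

theorem dE_dv' {x : AA P₀} (hx : x ≠ 0) :
    dEg (fun z : ZZ P₀ => z.1.deg) (dvv P₀ x) = P₀.deg * htt P₀ x := by
  have h1 := deg_eq hx
  rw [ddeg_io] at h1
  have h2 := htt_eq hx
  have : (dEg (fun z : ZZ P₀ => z.1.deg) (dvv P₀ x) : ℤ) = P₀.deg * htt P₀ x := by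
    rw [h1, h2]; ring
  exact_mod_cast this

theorem dv_mul' {x y : AA P₀} (hx : x ≠ 0) (hy : y ≠ 0) :
    dvv P₀ (x * y) = dvv P₀ x + dvv P₀ y := by
  ext z
  have h : ((dvv P₀ (x * y) z : ℕ) : ℤ) = ((dvv P₀ x z : ℕ) : ℤ) + ((dvv P₀ y z : ℕ) : ℤ) := by
    rw [dvv_apply, dvv_apply, dvv_apply]
    exact z.1.ord_mul (coe_ne hx) (coe_ne hy)
  rw [Finsupp.add_apply]
  exact_mod_cast h

theorem dv_add' {x y : AA P₀} (hx : x ≠ 0) (hy : y ≠ 0) (hxy : x + y ≠ 0) (z : ZZ P₀) :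
    min (dvv P₀ x z) (dvv P₀ y z) ≤ dvv P₀ (x + y) z := by
  have h := z.1.ord_add (coe_ne hx) (coe_ne hy) (coe_ne hxy)
  have h1 := dvv_apply x z
  have h2 := dvv_apply y z
  have h3 := dvv_apply (x + y) z
  have h4 : (x + y : AA P₀).1 = x.1 + y.1 := rfl
  rw [h4] at h3
  omega

theorem dvd_of_le' {x y : AA P₀} (hx : x ≠ 0) (hy : y ≠ 0) (h : dvv P₀ x ≤ dvv P₀ y) : x ∣ y := by
  have hm : y.1 / x.1 ∈ AA P₀ := by
    intro P hP
    right
    rw [P.ord_div (coe_ne hy) (coe_ne hx)]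
    have h1 := dvv_apply x ⟨P, hP⟩
    have h2 := dvv_apply y ⟨P, hP⟩
    have h3 := h ⟨P, hP⟩
    simp only at h1 h2
    omega
  refine ⟨⟨y.1 / x.1, hm⟩, ?_⟩
  apply Subtype.ext
  change y.1 = x.1 * (y.1 / x.1)
  rw [mul_div_cancel₀ _ (coe_ne hx)]

theorem ht_add' {x y : AA P₀} (hx : x ≠ 0) (hy : y ≠ 0) (hxy : x + y ≠ 0) :
    htt P₀ (x + y) ≤ max (htt P₀ x) (htt P₀ y) := by
  have h := P₀.ord_add (coe_ne hx) (coe_ne hy) (coe_ne hxy)
  have h1 := htt_eq hx
  have h2 := htt_eq hy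
  have h3 := htt_eq hxy
  have h4 : (x + y : AA P₀).1 = x.1 + y.1 := rfl
  rw [h4] at h3
  omega

theorem ht_mul' {x y : AA P₀} (hx : x ≠ 0) (hy : y ≠ 0) :
    htt P₀ (x * y) = htt P₀ x + htt P₀ y := by
  have hxy : x * y ≠ 0 := mul_ne_zero hx hy
  have h := P₀.ord_mul (coe_ne hx) (coe_ne hy)
  have h1 := htt_eq hx
  have h2 := htt_eq hy
  have h3 := htt_eq hxy
  have h4 : (x * y : AA P₀).1 = x.1 * y.1 := rfl
  rw [h4] at h3
  omega

/-! ## Boxes -/

theorem mem_box {E : ZZ P₀ →₀ ℕ} {m : ℕ} (hm : 0 < m) {x : AA P₀} :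
    (x = 0 ∨ (E ≤ dvv P₀ x ∧ htt P₀ x < m)) ↔
      x.1 ∈ LL (Finsupp.single P₀ ((m : ℤ) - 1) - io E) := by
  classical
  by_cases hx : x = 0
  · subst hx
    simp only [true_or, true_iff]
    exact Submodule.zero_mem _
  · rw [mem_LL]
    simp only [hx, coe_ne hx, false_or]
    constructor
    · rintro ⟨h1, h2⟩ P
      rw [Finsupp.sub_apply]
      by_cases hP : P = P₀
      · subst hP
        rw [io_self, Finsupp.single_eq_same]
        have := htt_eq hx
        omega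
      · rw [Finsupp.single_eq_of_ne hP, io_apply E ⟨P, hP⟩]
        have h3 := dvv_apply x ⟨P, hP⟩
        have h4 := h1 ⟨P, hP⟩
        simp only at h3
        omega
    · intro h
      constructor
      · intro z
        have h1 := h z.1
        rw [Finsupp.sub_apply, Finsupp.single_eq_of_ne z.2, io_apply E z] at h1
        have h3 := dvv_apply x z
        omega
      · have h1 := h P₀
        rw [Finsupp.sub_apply, Finsupp.single_eq_same, io_self] at h1
        have := htt_eq hx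
        omega

theorem LL_sub {E : ZZ P₀ →₀ ℕ} {n : ℤ} {f : K}
    (hf : f ∈ LL (Finsupp.single P₀ n - io E)) : f ∈ AA P₀ := by
  classical
  intro P hP
  rcases hf with hf | hf
  · exact Or.inl hf
  · right
    have h1 := hf P
    rw [Finsupp.sub_apply, Finsupp.single_eq_of_ne hP, io_apply E ⟨P, hP⟩] at h1
    omega

theorem box_ncard [Finite k] (E : ZZ P₀ →₀ ℕ) {m : ℕ} (hm : 0 < m) :
    {x : AA P₀ | x = 0 ∨ (E ≤ dvv P₀ x ∧ htt P₀ x < m)}.ncard =
      Nat.card k ^ finrank k (LL (Finsupp.single P₀ ((m : ℤ) - 1) - io E)) := by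
  rw [← Module.natCard_eq_pow_finrank (K := k)]
  rw [← Nat.card_coe_set_eq]
  apply Nat.card_congr
  exact
    { toFun := fun x => ⟨x.1.1, (mem_box hm).1 x.2⟩
      invFun := fun f => ⟨⟨f.1, LL_sub f.2⟩, (mem_box hm).2 f.2⟩
      left_inv := fun x => rfl
      right_inv := fun f => rfl }

/-! ## Signs -/

theorem reg_sign {t : K} (ht0 : t ≠ 0) (ht : P₀.ord t = 1) (x : AA P₀) {h : ℕ}
    (hh : htt P₀ x ≤ h) : P₀.Reg (x.1 * t ^ h) := by
  by_cases hx : x = 0
  · left; rw [hx]; simp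
  · right
    rw [P₀.ord_mul (coe_ne hx) (pow_ne_zero _ ht0), P₀.ord_pow, ht]
    have := htt_eq hx
    omega

/-- sign one. -/
def mn (t : K) (x : AA P₀) : Prop := x ≠ 0 ∧ P₀.red (x.1 * t ^ htt P₀ x) = 1

theorem red_sign_zero {t : K} (ht0 : t ≠ 0) (ht : P₀.ord t = 1) (x : AA P₀) {h : ℕ}
    (hh : htt P₀ x < h) : P₀.red (x.1 * t ^ h) = 0 := by
  rw [P₀.red_eq_zero_iff (reg_sign ht0 ht x hh.le)]
  by_cases hx : x = 0
  · left; rw [hx]; simp
  · right
    rw [P₀.ord_mul (coe_ne hx) (pow_ne_zero _ ht0), P₀.ord_pow, ht]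
    have := htt_eq hx
    omega

theorem lt_of_red_zero {t : K} (ht0 : t ≠ 0) (ht : P₀.ord t = 1) {x : AA P₀} (hx : x ≠ 0) {h : ℕ}
    (hh : htt P₀ x ≤ h) (hr : P₀.red (x.1 * t ^ h) = 0) : htt P₀ x < h := by
  rw [P₀.red_eq_zero_iff (reg_sign ht0 ht x hh)] at hr
  rcases hr with hr | hr
  · exact absurd hr (mul_ne_zero (coe_ne hx) (pow_ne_zero _ ht0))
  · rw [P₀.ord_mul (coe_ne hx) (pow_ne_zero _ ht0), P₀.ord_pow, ht] at hr
    have := htt_eq hx
    omega

theorem red_sign_mul {t : K} (ht0 : t ≠ 0) (ht : P₀.ord t = 1) {x y : AA P₀} (hx : x ≠ 0)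
    (hy : y ≠ 0) : P₀.red ((x * y : AA P₀).1 * t ^ htt P₀ (x * y)) =
      P₀.red (x.1 * t ^ htt P₀ x) * P₀.red (y.1 * t ^ htt P₀ y) := by
  rw [← P₀.red_mul (reg_sign ht0 ht x le_rfl) (reg_sign ht0 ht y le_rfl), ht_mul' hx hy]
  congr 1
  change x.1 * y.1 * t ^ (htt P₀ x + htt P₀ y) = _
  ring

theorem red_sign_ne {t : K} (ht0 : t ≠ 0) (ht : P₀.ord t = 1) {x : AA P₀} (hx : x ≠ 0) :
    P₀.red (x.1 * t ^ htt P₀ x) ≠ 0 := by
  apply P₀.red_ne_zero (mul_ne_zero (coe_ne hx) (pow_ne_zero _ ht0))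
  rw [P₀.ord_mul (coe_ne hx) (pow_ne_zero _ ht0), P₀.ord_pow, ht, htt_eq hx]
  ring

theorem one_ne' : (1 : AA P₀) ≠ 0 := by
  intro h
  exact one_ne_zero (α := K) (congrArg Subtype.val h)

theorem htt_one : htt P₀ 1 = 0 := by
  have h := htt_eq (P₀ := P₀) one_ne'
  have h1 : P₀.ord (1 : AA P₀).1 = 0 := P₀.ord_one
  rw [h1] at h
  simpa using h

theorem mn_one (t : K) : mn t (1 : AA P₀) := by
  refine ⟨one_ne', ?_⟩
  rw [htt_one]
  change P₀.red (1 * t ^ 0) = 1
  rw [pow_zero, mul_one, P₀.red_one]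

theorem mn_mul {t : K} (ht0 : t ≠ 0) (ht : P₀.ord t = 1) {x y : AA P₀} (hx : mn t x)
    (hy : mn t y) : mn t (x * y) := by
  refine ⟨mul_ne_zero hx.1 hy.1, ?_⟩
  rw [red_sign_mul ht0 ht hx.1 hy.1, hx.2, hy.2, one_mul]

theorem mn_cancel {t : K} (ht0 : t ≠ 0) (ht : P₀.ord t = 1) {x y : AA P₀} (hx : mn t x)
    (hxy : mn t (x * y)) : mn t y := by
  have hy : y ≠ 0 := right_ne_zero_of_mul hxy.1
  refine ⟨hy, ?_⟩
  have := hxy.2
  rwa [red_sign_mul ht0 ht hx.1 hy, hx.2, one_mul] at this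

theorem mn_add {t : K} (ht0 : t ≠ 0) (ht : P₀.ord t = 1) {x y : AA P₀} (hx : mn t x)
    (hy : y ≠ 0) (h : htt P₀ y < htt P₀ x) : mn t (x + y) := by
  have h1 := htt_eq hx.1
  have h2 := htt_eq hy
  obtain ⟨h3, h4⟩ := P₀.ord_add_eq (coe_ne hx.1) (coe_ne hy) (by omega)
  have h5 : x + y ≠ 0 := fun h => h3 (congrArg Subtype.val h)
  have h6 : htt P₀ (x + y) = htt P₀ x := by
    have := htt_eq h5
    have h7 : (x + y : AA P₀).1 = x.1 + y.1 := rfl
    rw [h7, h4] at this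
    omega
  refine ⟨h5, ?_⟩
  rw [h6]
  have h7 : (x + y : AA P₀).1 * t ^ htt P₀ x = x.1 * t ^ htt P₀ x + y.1 * t ^ htt P₀ x := by
    change (x.1 + y.1) * _ = _
    ring
  rw [h7, P₀.red_add (reg_sign ht0 ht x le_rfl) (reg_sign ht0 ht y h.le), hx.2,
    red_sign_zero ht0 ht y h, add_zero]

theorem ht_sub_le {x y : AA P₀} (hx : x ≠ 0) (hy : y ≠ 0) (hxy : x - y ≠ 0) :
    htt P₀ (x - y) ≤ max (htt P₀ x) (htt P₀ y) := by
  have h := P₀.ord_sub (coe_ne hx) (coe_ne hy) (coe_ne hxy)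
  have h1 := htt_eq hx
  have h2 := htt_eq hy
  have h3 := htt_eq hxy
  have h4 : (x - y : AA P₀).1 = x.1 - y.1 := rfl
  rw [h4] at h3
  omega

theorem mn_sub {t : K} (ht0 : t ≠ 0) (ht : P₀.ord t = 1) {x y : AA P₀} (hx : mn t x)
    (hy : mn t y) (h : htt P₀ x = htt P₀ y) (hne : x ≠ y) : htt P₀ (x - y) < htt P₀ x := by
  have h1 : x - y ≠ 0 := sub_ne_zero.2 hne
  have h2 := ht_sub_le hx.1 hy.1 h1
  rw [← h, max_self] at h2
  apply lt_of_red_zero ht0 ht h1 h2
  have h7 : (x - y : AA P₀).1 * t ^ htt P₀ x = x.1 * t ^ htt P₀ x - y.1 * t ^ htt P₀ x := by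
    change (x.1 - y.1) * _ = _
    ring
  rw [h7, P₀.red_sub (reg_sign ht0 ht x le_rfl) (reg_sign ht0 ht y h.ge), hx.2, h, hy.2, sub_self]

theorem mn_pow [Finite k] {t : K} (ht0 : t ≠ 0) (ht : P₀.ord t = 1) :
    ∃ N, 0 < N ∧ ∀ x : AA P₀, x ≠ 0 → mn t (x ^ N) := by
  have hfin : Finite P₀.RF := Module.finite_of_finite k
  have hfin2 : Finite P₀.RFˣ := inferInstance
  refine ⟨Nat.card P₀.RFˣ, Nat.card_pos, ?_⟩
  intro x hx
  have key : ∀ n : ℕ, x ^ n ≠ 0 ∧ P₀.red ((x ^ n : AA P₀).1 * t ^ htt P₀ (x ^ n)) =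
      P₀.red (x.1 * t ^ htt P₀ x) ^ n := by
    intro n
    induction n with
    | zero =>
      rw [pow_zero, pow_zero]
      exact mn_one t
    | succ n ih =>
      rw [pow_succ]
      refine ⟨mul_ne_zero ih.1 hx, ?_⟩
      rw [red_sign_mul ht0 ht ih.1 hx, ih.2, ← pow_succ]
  refine ⟨(key _).1, ?_⟩
  rw [(key _).2]
  have h := red_sign_ne ht0 ht hx
  have h2 := pow_card_eq_one' (x := Units.mk0 _ h)
  have h3 := congrArg Units.val h2
  rw [Units.val_pow_eq_pow_val, Units.val_mk0, Units.val_one] at h3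
  exact h3

theorem mn_ex {t : K} (ht0 : t ≠ 0) (ht : P₀.ord t = 1) {γ N : ℤ}
    (hR : ∀ D : Place k K →₀ ℤ, N ≤ ddeg D → ell D = ddeg D - γ) {m : ℕ}
    (hm : N ≤ (m - 1) * P₀.deg) : ∃ x : AA P₀, mn t x ∧ htt P₀ x = m := by
  classical
  have hδ : (0 : ℤ) < P₀.deg := by exact_mod_cast deg_pos P₀
  let D : Place k K →₀ ℤ := Finsupp.single P₀ ((m : ℤ) - 1)
  let D' : Place k K →₀ ℤ := Finsupp.single P₀ (m : ℤ)
  have hD : ell D = (m - 1) * P₀.deg - γ := by
    rw [hR D (by rw [ddeg_single]; exact hm), ddeg_single]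
  have hD' : ell D' = m * P₀.deg - γ := by
    rw [hR D' (by rw [ddeg_single]; nlinarith), ddeg_single]
  have hreg : ∀ f : LL D', P₀.Reg (f.1 * t ^ m) := by
    rintro ⟨f, hf⟩
    by_cases hf0 : f = 0
    · left; simp [hf0]
    · right
      have h1 := (hf.resolve_left hf0) P₀
      rw [P₀.ord_mul hf0 (pow_ne_zero _ ht0), P₀.ord_pow, ht]
      simp only [D', Finsupp.single_eq_same] at h1
      omega
  let φ : LL D' →ₗ[k] P₀.RF :=
    { toFun := fun f => P₀.red (f.1 * t ^ m)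
      map_add' := by
        intro f g
        rw [← P₀.red_add (hreg f) (hreg g), ← add_mul]; rfl
      map_smul' := by
        intro c f
        rw [RingHom.id_apply, Algebra.smul_def c (P₀.red _), Place.algebraMap_RF,
          ← P₀.red_mul (P₀.reg_const c) (hreg f), ← mul_assoc, ← Algebra.smul_def]; rfl }
  have hker : LinearMap.ker φ = (LL D).comap (LL D').subtype := by
    ext f
    rw [LinearMap.mem_ker, Submodule.mem_comap]
    change P₀.red (f.1 * t ^ m) = 0 ↔ f.1 ∈ LL D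
    rw [P₀.red_eq_zero_iff (hreg f)]
    by_cases hf0 : f.1 = 0
    · simp [hf0]
    · rw [P₀.ord_mul hf0 (pow_ne_zero _ ht0), P₀.ord_pow, ht]
      have h1 : f.1 * t ^ m ≠ 0 := mul_ne_zero hf0 (pow_ne_zero _ ht0)
      simp only [h1, false_or]
      rw [mem_LL]
      simp only [hf0, false_or]
      constructor
      · intro h2 Q
        by_cases hQ : Q = P₀
        · subst hQ
          simp only [D, Finsupp.single_eq_same]; omega
        · have := (f.2.resolve_left hf0) Q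
          simp only [D', Finsupp.single_eq_of_ne hQ] at this
          simp only [D, Finsupp.single_eq_of_ne hQ]
          exact this
      · intro h2
        have := h2 P₀
        simp only [D, Finsupp.single_eq_same] at this
        omega
  have hle : LL D ≤ LL D' := by
    apply LL_mono
    intro Q
    by_cases hQ : Q = P₀
    · subst hQ
      simp [D, D']
    · simp [D, D', Finsupp.single_eq_of_ne hQ]
  let e : LinearMap.ker φ ≃ₗ[k] LL D := (LinearEquiv.ofEq _ _ hker).trans (Submodule.comapSubtypeEquivOfLe hle)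
  have h4 := LinearMap.finrank_range_add_finrank_ker φ
  rw [e.finrank_eq] at h4
  have h5 : finrank k (LinearMap.range φ) = finrank k P₀.RF := by
    change _ = P₀.deg
    unfold ell at hD hD'
    have : ((finrank k (LinearMap.range φ) : ℕ) : ℤ) = P₀.deg := by
      have h6 : ((finrank k (LinearMap.range φ) : ℕ) : ℤ) + finrank k (LL D) = finrank k (LL D') := by
        exact_mod_cast h4
      rw [hD, hD'] at h6
      linarith
    exact_mod_cast this
  have h6 : LinearMap.range φ = ⊤ := Submodule.eq_top_of_finrank_eq h5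
  obtain ⟨⟨f, hf⟩, hf1⟩ : (1 : P₀.RF) ∈ LinearMap.range φ := by rw [h6]; trivial
  change P₀.red (f * t ^ m) = 1 at hf1
  have hf0 : f ≠ 0 := by
    rintro rfl
    rw [zero_mul, P₀.red_zero] at hf1
    exact zero_ne_one hf1
  have hfA : f ∈ AA P₀ := by
    intro P hP
    right
    have := (hf.resolve_left hf0) P
    simp only [D', Finsupp.single_eq_of_ne hP] at this
    omega
  have hx : (⟨f, hfA⟩ : AA P₀) ≠ 0 := fun h => hf0 (congrArg Subtype.val h)
  have hord : P₀.ord f = - m := by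
    have h1 := (hf.resolve_left hf0) P₀
    simp only [D', Finsupp.single_eq_same] at h1
    have h2 : ¬ (0 < P₀.ord (f * t ^ m)) := by
      intro h3
      have := (P₀.red_eq_zero_iff (hreg ⟨f, hf⟩)).2 (Or.inr h3)
      rw [hf1] at this
      exact one_ne_zero this
    rw [P₀.ord_mul hf0 (pow_ne_zero _ ht0), P₀.ord_pow, ht] at h2
    omega
  have hht : htt P₀ (⟨f, hfA⟩ : AA P₀) = m := by
    have := htt_eq hx
    simp only at this
    rw [hord] at this
    omega
  refine ⟨⟨f, hfA⟩, ⟨hx, ?_⟩, hht⟩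
  rw [hht]
  exact hf1

/-! ## Fractions -/

theorem frac : IsFractionRing (AA P₀) K := by
  classical
  apply IsFractionRing.of_field
  intro f
  by_cases hf0 : f = 0
  · exact ⟨0, 1, by simp [hf0]⟩
  obtain ⟨γ, N, hR, -⟩ := riemann k K
  have hδ : (0 : ℤ) < P₀.deg := by exact_mod_cast deg_pos P₀
  let n : ℕ := (ddeg (polar (k := k) f) + γ).toNat + 1
  let D : Place k K →₀ ℤ := Finsupp.single P₀ (n : ℤ) - polar (k := k) f
  have h1 : 0 < ell D := by
    have h2 := hR D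
    have h3 : ddeg D = n * P₀.deg - ddeg (polar (k := k) f) := by
      rw [ddeg_sub, ddeg_single]
    have h4 : (n : ℤ) ≤ n * P₀.deg := by nlinarith
    have h5 : ddeg (polar (k := k) f) + γ < n := by
      have := Int.self_le_toNat (ddeg (polar (k := k) f) + γ)
      simp only [n]
      push_cast
      omega
    omega
  obtain ⟨b, hb, hb0⟩ := exists_ne_zero_of_ell_pos h1
  have hb' := hb.resolve_left hb0
  have hbA : b ∈ AA P₀ := by
    intro P hP
    right
    have h2 := hb' P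
    have h3 := polar_nonneg (k := k) f P
    simp only [D, Finsupp.sub_apply, Finsupp.single_eq_of_ne hP, Finsupp.coe_zero,
      Pi.zero_apply] at h2 h3
    omega
  have hbfA : b * f ∈ AA P₀ := by
    intro P hP
    right
    rw [P.ord_mul hb0 hf0]
    have h2 := hb' P
    simp only [D, Finsupp.sub_apply, Finsupp.single_eq_of_ne hP, polar_apply] at h2
    omega
  refine ⟨⟨b * f, hbfA⟩, ⟨b, hbA⟩, ?_⟩
  change f = (b * f) / b
  rw [mul_div_cancel_left₀ _ hb0]

/-- PIECE `FFAr`. -/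
theorem ffAr : FFAr := by
  intro k K _ _ _ _ _
  obtain ⟨P₀, -⟩ := exists_place (k := k) (K := K)
  obtain ⟨γ, N, hR1, hR⟩ := riemann k K
  obtain ⟨t, ht0, ht⟩ := P₀.surj
  have hδ : (0 : ℤ) < P₀.deg := by exact_mod_cast deg_pos P₀
  have hγ : 0 ≤ (P₀.deg : ℤ) + γ := by
    have h1 := hR1 (Finsupp.single P₀ (-1))
    have h2 : ell (Finsupp.single P₀ (-1)) = 0 := by
      unfold ell
      rw [LL_eq_bot (by rw [ddeg_single]; linarith)]
      simp
    rw [h2, ddeg_single] at h1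
    linarith
  refine ⟨AA P₀, ZZ P₀,
    { q := Nat.card k
      δ := P₀.deg
      c := ((P₀.deg : ℤ) + γ).toNat
      c₀ := N.natAbs + 2 * P₀.deg + 1 + ((P₀.deg : ℤ) + γ).toNat
      two_le_q := Finite.one_lt_card
      δ_pos := deg_pos P₀
      dg := fun z => z.1.deg
      dg_pos := fun z => deg_pos z.1
      dv := dvv P₀
      ht := htt P₀
      dv_mul := fun x y hx hy => dv_mul' hx hy
      dv_add := fun x y hx hy hxy z => dv_add' hx hy hxy z
      dvd_of_le := fun x y hx hy h => dvd_of_le' hx hy h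
      dE_dv := fun x hx => dE_dv' hx
      ht_add := fun x y hx hy hxy => ht_add' hx hy hxy
      box := ?_
      mon := mn t
      mon_ne := fun x hx => hx.1
      mon_one := mn_one t
      mon_mul := fun x y hx hy => mn_mul ht0 ht hx hy
      mon_cancel := fun x y hx hxy => mn_cancel ht0 ht hx hxy
      mon_add := fun x y hx hy h => mn_add ht0 ht hx hy h
      mon_sub := fun x y hx hy h hne => mn_sub ht0 ht hx hy h hne
      mon_ex := ?_
      mon_pow := mn_pow ht0 ht }, frac⟩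
  · intro E m hm
    have hm0 : 0 < m := by
      rcases Nat.eq_zero_or_pos m with h | h
      · subst h; omega
      · exact h
    rw [box_ncard E hm0, ← pow_add]
    congr 1
    have hm' : (dEg (fun z : ZZ P₀ => z.1.deg) E : ℤ) + (N.natAbs + 2 * P₀.deg + 1 +
        ((P₀.deg : ℤ) + γ).toNat : ℕ) ≤ P₀.deg * m := by exact_mod_cast hm
    have h1 : ddeg (Finsupp.single P₀ ((m : ℤ) - 1) - io E) =
        (m - 1) * P₀.deg - dEg (fun z : ZZ P₀ => z.1.deg) E := by
      rw [ddeg_sub, ddeg_single, ddeg_io]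
    have h2 := hR (Finsupp.single P₀ ((m : ℤ) - 1) - io E) (by
      rw [h1]
      push_cast at hm'
      have h3 := le_abs_self N
      have h4 : (0 : ℤ) ≤ (((P₀.deg : ℤ) + γ).toNat : ℤ) := by positivity
      nlinarith)
    rw [h1] at h2
    unfold ell at h2
    have h5 : ((((P₀.deg : ℤ) + γ).toNat : ℕ) : ℤ) = P₀.deg + γ := Int.toNat_of_nonneg hγ
    have h6 : ((finrank k (LL (Finsupp.single P₀ ((m : ℤ) - 1) - io E)) +
      (dEg (fun z : ZZ P₀ => z.1.deg) E + ((P₀.deg : ℤ) + γ).toNat) : ℕ) : ℤ) =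
        ((P₀.deg * m : ℕ) : ℤ) := by
      push_cast
      rw [h2]
      push_cast at h5
      rw [h5]
      ring
    exact_mod_cast h6
  · intro m hm
    apply mn_ex ht0 ht hR
    have hm' : ((N.natAbs + 2 * P₀.deg + 1 + ((P₀.deg : ℤ) + γ).toNat : ℕ) : ℤ) ≤
        P₀.deg * m := by exact_mod_cast hm
    push_cast at hm'
    have h3 := le_abs_self N
    have h4 : (0 : ℤ) ≤ (((P₀.deg : ℤ) + γ).toNat : ℤ) := by positivity
    nlinarith

end Pool.Agent.T9h85.GG
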